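import Pool.Agent.H92.S2.LUT2
import Pool.Agent.H95.SFU.LNU

/-!
# MP_70ba79_ag, THEOREM S, part 2, board `sfv_modules`: row LNU2
-/

set_option autoImplicit false

namespace Pool.Agent.H78.SFV

open MvPolynomial
open Pool.Agent.H84.SM (dp cr dt)
open Pool.Agent.H3.SF Pool.Agent.H3.S2 Pool.Agent.H92.SF Pool.Agent.H92.S2
open Pool.Agent.H95.SFU (sum_cubic sum_cubic' term_ge)

theorem pf_LNU2 (hNSA : T_NSA) : T_LNU2 := by
  intro δ j0 c0 q hq
  refine ⟨2 * q * (2 * (j0 + 2 * c0 + 1) + 432 * (j0 + 3) + 434), fun m sg c1 c2 hmm => ?_⟩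
  obtain ⟨j1, hj1⟩ : ∃ j : ℕ, j = j0 + sg := ⟨_, rfl⟩
  obtain ⟨s, hs⟩ : ∃ s : ℕ, s = j1 + 2 * c0 + 1 := ⟨_, rfl⟩
  obtain ⟨C2, hC2⟩ : ∃ C : ℕ, C = c2 + c1 * j1 := ⟨_, rfl⟩
  refine ⟨32 * q + C2 + m + c0 + 8, fun b D n hn hneg hup hlo hLON hLTW => ?_⟩
  have hj1' : (j0 : ℤ) + (sg : ℤ) = (j1 : ℤ) := by rw [hj1]; push_cast; ring
  simp only [hj1', ← hj1] at hLON
  have hm : 2 * q * (2 * s + 432 * (j1 + 3)) ≤ m := by
    refine le_trans ?_ hmm
    have h1 : 2 * s + 432 * (j1 + 3) ≤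
        (2 * (j0 + 2 * c0 + 1) + 432 * (j0 + 3) + 434) * (sg + 1) := by
      rw [hs, hj1]
      nlinarith [Nat.zero_le (j0 * sg), Nat.zero_le (c0 * sg)]
    calc 2 * q * (2 * s + 432 * (j1 + 3)) ≤
        2 * q * ((2 * (j0 + 2 * c0 + 1) + 432 * (j0 + 3) + 434) * (sg + 1)) :=
          Nat.mul_le_mul_left _ h1
      _ = _ := by ring
  have hm0 : 2 * (2 * s + 432 * (j1 + 3)) ≤ m := by
    refine le_trans ?_ hm
    have : 2 * 1 * (2 * s + 432 * (j1 + 3)) ≤ 2 * q * (2 * s + 432 * (j1 + 3)) := by gcongr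
    linarith
  obtain ⟨μ, hμ⟩ : ∃ μ : ℕ, μ = m - j0 := ⟨_, rfl⟩
  have hμ1 : μ + j0 = m := by omega
  have hμ2 : m ≤ 2 * μ := by omega
  have hmpos : 0 < m := by omega
  have hμpos : 0 < μ := by omega
  obtain ⟨K, hK⟩ : ∃ K : ℕ, K = ((j1 + 2) * n + C2) / μ + 1 := ⟨_, rfl⟩
  have hK1 : (j1 + 2) * n + C2 ≤ μ * K := by
    rw [hK]
    have := Nat.lt_mul_div_succ ((j1 + 2) * n + C2) hμpos
    exact this.le
  have hK2 : μ * K ≤ (j1 + 2) * n + C2 + m := by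
    rw [hK, mul_add, mul_one]
    have := Nat.mul_div_le ((j1 + 2) * n + C2) μ
    omega
  obtain ⟨B, hB⟩ : ∃ B : ℤ, B = nC n * (δ * (m + 2 * c0) * (μ * K + n * (m + 2 * j0) + c0)) :=
    ⟨_, rfl⟩
  have hstep : ∀ k : ℕ, k ≤ K → (D ((μ * k : ℕ) : ℤ) : ℤ) ≤ D 0 + k * B := by
    intro k
    induction k with
    | zero => intro _; simp
    | succ k ih =>
      intro hk
      have h1 := ih (by omega)
      have h2 := hLTW (μ * (k + 1))
      have h3 : ((μ * (k + 1) : ℕ) : ℤ) - m + j0 = ((μ * k : ℕ) : ℤ) := by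
        rw [← hμ1]
        push_cast
        ring
      rw [h3] at h2
      have h4 : (nC n : ℤ) * (δ * (m + 2 * c0) * (((μ * (k + 1) : ℕ) : ℤ) + n * (m + 2 * j0) + c0)) ≤
          B := by
        rw [hB]
        have h5 : ((μ * (k + 1) : ℕ) : ℤ) ≤ μ * K := by
          exact_mod_cast Nat.mul_le_mul_left μ hk
        gcongr
      push_cast at h1 h2 h4 ⊢
      linarith
  have hA := hstep K le_rfl
  have hL := hLON (μ * K) (by rw [hC2] at hK1; omega)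
  -- the terms
  have hterm : ∀ N ∈ Finset.range (n / 3 + 1),
      (δ : ℝ) * ((m : ℝ) - (j1 + 2 * c0 + 1)) ^ 2 *
        (N * (3 * ((n / 3 : ℕ) : ℝ) - 3 * N) * (3 * ((n / 3 : ℕ) : ℝ) - 2 * N)) ≤
      2 * ((((b (((μ * K : ℕ) : ℤ) + (m - j1) * N - n - c1 * j1) : ℤ) *
        ((n - 3 * N + 2).choose 2 : ℕ) -
        b (((μ * K : ℕ) : ℤ) + (m - j1) * N - n - c1 * j1 - m + 1 + sg) *
          ((n - 3 * N + 1).choose 2 : ℕ) : ℤ)) : ℝ) := by
    intro N hN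
    have hN' : N ≤ n / 3 := Nat.lt_succ_iff.1 (Finset.mem_range.1 hN)
    have h3N : 3 * N ≤ n := by omega
    obtain ⟨i, hi⟩ : ∃ i : ℕ, i = n - 3 * N := ⟨_, rfl⟩
    rw [← hi]
    have hin : i + 3 * N = n := by omega
    obtain ⟨e, he⟩ : ∃ e : ℤ, e = ((μ * K : ℕ) : ℤ) + (m - j1) * N - n - c1 * j1 := ⟨_, rfl⟩
    rw [← he]
    have hms : ((m - sg : ℕ) : ℤ) = (m : ℤ) - sg := by
      rw [Nat.cast_sub (by omega)]
    have hmsr : ((m - sg : ℕ) : ℝ) = (m : ℝ) - sg := by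
      rw [Nat.cast_sub (by omega)]
    have hj1r : (j1 : ℝ) = j0 + sg := by rw [hj1]; push_cast; ring
    have he' : (n : ℤ) + (((m - sg : ℕ) : ℤ) - j0) * N ≤ e := by
      have h5 : (((j1 + 2) * n + C2 : ℕ) : ℤ) ≤ ((μ * K : ℕ) : ℤ) := by exact_mod_cast hK1
      have h6 : (0 : ℤ) ≤ (j1 : ℤ) * n := by positivity
      rw [hms, show (m : ℤ) - sg - j0 = m - j1 by rw [← hj1']; ring]
      have h7 : (0 : ℤ) ≤ (c2 : ℤ) := by positivity
      have h8 : (0 : ℤ) ≤ (n : ℤ) := by positivity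
      rw [hC2] at h5
      push_cast at h5
      rw [he]
      push_cast
      linarith
    have h9 := term_ge δ j0 c0 (m - sg) n N i b e (by omega) (by omega) he' hneg hup hlo
    rw [hms, hmsr, show (m : ℝ) - sg - (j0 + 2 * c0 + 1) = m - (j1 + 2 * c0 + 1) by
      rw [hj1r]; ring, show e - ((m : ℤ) - sg) + 1 = e - m + 1 + sg by ring] at h9
    have h10 : (N : ℝ) * (3 * ((n / 3 : ℕ) : ℝ) - 3 * N) * (3 * ((n / 3 : ℕ) : ℝ) - 2 * N) ≤
        N * i * (N + i) := by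
      have h11 : 3 * ((n / 3 : ℕ) : ℝ) - 3 * N ≤ i := by
        have : 3 * (n / 3) ≤ i + 3 * N := by omega
        have : ((3 * (n / 3) : ℕ) : ℝ) ≤ ((i + 3 * N : ℕ) : ℝ) := by exact_mod_cast this
        push_cast at this ⊢
        linarith
      have h12 : 0 ≤ 3 * ((n / 3 : ℕ) : ℝ) - 3 * N := by
        have : (N : ℝ) ≤ ((n / 3 : ℕ) : ℝ) := by exact_mod_cast hN'
        linarith
      have h13 : (0 : ℝ) ≤ N := Nat.cast_nonneg N
      have h14 : 0 ≤ 3 * ((n / 3 : ℕ) : ℝ) - 2 * N := by linarith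
      refine mul_le_mul ?_ (by linarith) h14 (by positivity)
      gcongr
    have h15 : 0 ≤ (δ : ℝ) * ((m : ℝ) - (j1 + 2 * c0 + 1)) ^ 2 := by positivity
    have h16 := mul_le_mul_of_nonneg_left h10 h15
    push_cast
    linarith
  have hsum := Finset.sum_le_sum hterm
  rw [← Finset.mul_sum, sum_cubic', ← Finset.mul_sum, ← Int.cast_sum] at hsum
  have hLr : ((∑ N ∈ Finset.range (n / 3 + 1),
      (((b (((μ * K : ℕ) : ℤ) + (m - j1) * N - n - c1 * j1) : ℤ) *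
        ((n - 3 * N + 2).choose 2 : ℕ) -
        b (((μ * K : ℕ) : ℤ) + (m - j1) * N - n - c1 * j1 - m + 1 + sg) *
          ((n - 3 * N + 1).choose 2 : ℕ) : ℤ)) : ℤ) : ℝ) ≤ (D ((μ * K : ℕ) : ℤ) : ℝ) := by
    exact_mod_cast hL
  have hAr : (D ((μ * K : ℕ) : ℤ) : ℝ) ≤ D 0 + K * (B : ℝ) := by
    exact_mod_cast hA
  -- the loss
  have hNSA2 : 6 * (nC n : ℝ) ≤ ((n : ℝ) + 3) ^ 2 := by exact_mod_cast (hNSA n).2.1
  obtain ⟨M, hM⟩ : ∃ M : ℝ, M = ((n / 3 : ℕ) : ℝ) := ⟨_, rfl⟩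
  rw [← hM] at hsum
  have hM1 : (n : ℝ) - 2 ≤ 3 * M := by
    have : n ≤ 3 * (n / 3) + 2 := by omega
    have : (n : ℝ) ≤ ((3 * (n / 3) + 2 : ℕ) : ℝ) := by exact_mod_cast this
    push_cast at this
    rw [hM]
    linarith
  have hM2 : 3 * M ≤ n := by
    have : 3 * (n / 3) ≤ n := by omega
    have : ((3 * (n / 3) : ℕ) : ℝ) ≤ n := by exact_mod_cast this
    push_cast at this
    rw [hM]
    linarith
  obtain ⟨x, hx⟩ : ∃ x : ℝ, x = n := ⟨_, rfl⟩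
  obtain ⟨y, hy⟩ : ∃ y : ℝ, y = m := ⟨_, rfl⟩
  obtain ⟨J, hJ⟩ : ∃ J : ℝ, J = j1 := ⟨_, rfl⟩
  obtain ⟨J', hJ'⟩ : ∃ J' : ℝ, J' = j0 := ⟨_, rfl⟩
  obtain ⟨c, hc⟩ : ∃ c : ℝ, c = c0 := ⟨_, rfl⟩
  obtain ⟨Q, hQ⟩ : ∃ Q : ℝ, Q = q := ⟨_, rfl⟩
  obtain ⟨κ, hκ⟩ : ∃ κ : ℝ, κ = μ * K := ⟨_, rfl⟩
  have hJ0 : 0 ≤ J := by rw [hJ]; positivity
  have hJ0' : 0 ≤ J' := by rw [hJ']; positivity
  have hJJ : J' ≤ J := by rw [hJ, hJ', hj1]; push_cast; linarith [(Nat.cast_nonneg sg : (0 : ℝ) ≤ sg)]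
  have hc0' : 0 ≤ c := by rw [hc]; positivity
  have hQ1 : 1 ≤ Q := by rw [hQ]; exact_mod_cast hq
  have hδ0 : (0 : ℝ) ≤ δ := Nat.cast_nonneg δ
  have hy0 : 0 < y := by rw [hy]; exact_mod_cast hmpos
  have hyQ : 2 * Q * (2 * (J + 2 * c + 1) + 432 * (J + 3)) ≤ y := by
    rw [hQ, hJ, hc, hy]
    have : ((2 * q * (2 * s + 432 * (j1 + 3)) : ℕ) : ℝ) ≤ m := by exact_mod_cast hm
    rw [hs] at this
    push_cast at this
    exact this
  have hy1 : 2 * (2 * (J + 2 * c + 1) + 432 * (J + 3)) ≤ y := by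
    refine le_trans ?_ hyQ
    have : 0 ≤ 2 * (J + 2 * c + 1) + 432 * (J + 3) := by positivity
    have h1 := mul_le_mul_of_nonneg_right hQ1 this
    linarith
  have hxn : 32 * Q + C2 + y + c + 8 ≤ x := by
    rw [hQ, hy, hc, hx]
    exact_mod_cast hn
  have hC20 : (0 : ℝ) ≤ C2 := Nat.cast_nonneg C2
  have hκ1 : κ ≤ (J + 3) * x := by
    have h1 : ((μ * K : ℕ) : ℝ) ≤ (((j1 + 2) * n + C2 + m : ℕ) : ℝ) := by exact_mod_cast hK2
    push_cast at h1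
    rw [← hκ, ← hJ, ← hx, ← hy] at h1
    linarith
  have hκ2 : κ + x * (y + 2 * J') + c ≤ 2 * y * x := by
    have h1 : ((μ * K : ℕ) : ℝ) ≤ (((j1 + 2) * n + C2 + m : ℕ) : ℝ) := by exact_mod_cast hK2
    push_cast at h1
    rw [← hκ, ← hJ, ← hx, ← hy] at h1
    have h2 : (3 * J + 3) * x ≤ y * x := by
      refine mul_le_mul_of_nonneg_right ?_ (by linarith)
      linarith
    have h3 : J' * x ≤ J * x := mul_le_mul_of_nonneg_right hJJ (by linarith)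
    linarith
  have hκ0 : 0 ≤ κ := by rw [hκ]; positivity
  have hloss : y * (K * (B : ℝ)) ≤ δ * (8 / 3 * (J + 3) * y ^ 2 * x ^ 4) := by
    rw [hB]
    push_cast
    rw [← hκ, ← hc, ← hy, ← hx, ← hJ']
    have h1 : y * K ≤ 2 * κ := by
      rw [hy, hκ]
      have h2 : (m : ℝ) ≤ 2 * μ := by exact_mod_cast hμ2
      have h3 := mul_le_mul_of_nonneg_right h2 (Nat.cast_nonneg K : (0 : ℝ) ≤ K)
      linarith
    have hx00 : 0 ≤ x := by linarith
    have hpos : 0 ≤ (nC n : ℝ) * (δ * (y + 2 * c) * (κ + x * (y + 2 * J') + c)) := by positivity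
    have h2 : y * (K * ((nC n : ℝ) * (δ * (y + 2 * c) * (κ + x * (y + 2 * J') + c)))) ≤
        δ * (2 * κ * (nC n * ((y + 2 * c) * (κ + x * (y + 2 * J') + c)))) := by
      have h3 := mul_le_mul_of_nonneg_right h1 hpos
      linarith
    refine h2.trans ?_
    refine mul_le_mul_of_nonneg_left ?_ hδ0
    have h3 : (nC n : ℝ) ≤ x ^ 2 / 3 := by
      rw [← hx] at hNSA2
      have h4 : (x + 3) ^ 2 ≤ 2 * x ^ 2 := by
        have h5 : 8 * x ≤ x * x := mul_le_mul_of_nonneg_right (by linarith) (by linarith)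
        linarith
      linarith
    have h5 : (y + 2 * c) * (κ + x * (y + 2 * J') + c) ≤ (2 * y) * (2 * y * x) := by
      refine mul_le_mul (by linarith) hκ2 ?_ (by linarith)
      have : 0 ≤ x * (y + 2 * J') := mul_nonneg (by linarith) (by linarith)
      linarith
    have h6 : 0 ≤ (y + 2 * c) * (κ + x * (y + 2 * J') + c) := by
      have : 0 ≤ x * (y + 2 * J') := mul_nonneg (by linarith) (by linarith)
      refine mul_nonneg (by linarith) (by linarith)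
    have h7 : (nC n : ℝ) * ((y + 2 * c) * (κ + x * (y + 2 * J') + c)) ≤
        x ^ 2 / 3 * ((2 * y) * (2 * y * x)) := mul_le_mul h3 h5 h6 (by positivity)
    have hx0 : 0 ≤ x := by linarith
    have h8 : κ * ((nC n : ℝ) * ((y + 2 * c) * (κ + x * (y + 2 * J') + c))) ≤
        (J + 3) * x * (x ^ 2 / 3 * ((2 * y) * (2 * y * x))) :=
      mul_le_mul hκ1 h7 (mul_nonneg (Nat.cast_nonneg _) h6) (by positivity)
    have h9 := mul_le_mul_of_nonneg_left h8 (by norm_num : (0 : ℝ) ≤ 2)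
    refine le_trans (le_of_eq ?_) (h9.trans (le_of_eq ?_))
    · ring
    · ring
  have hloss' : K * (B : ℝ) ≤ δ * (8 / 3 * (J + 3) * y * x ^ 4) := by
    have h1 : y * (K * (B : ℝ)) ≤ y * (δ * (8 / 3 * (J + 3) * y * x ^ 4)) := by
      refine hloss.trans (le_of_eq ?_)
      ring
    exact le_of_mul_le_mul_left h1 hy0
  -- the main term
  have hx0 : 0 ≤ x := by linarith
  rw [← hx] at hM1 hM2
  have hM81 : x ^ 4 - 8 * x ^ 3 ≤ 81 * (M ^ 4 - M ^ 2) := by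
    have h1 : (x - 2) ^ 4 ≤ (3 * M) ^ 4 := by
      have : 0 ≤ x - 2 := by linarith
      gcongr
    have h2 : (3 * M) ^ 2 ≤ x ^ 2 := by
      have : 0 ≤ 3 * M := by linarith
      gcongr
    have h3 : 0 ≤ 15 * x ^ 2 - 32 * x := by
      have : 0 ≤ x * (15 * x - 32) := mul_nonneg hx0 (by linarith)
      linarith
    linarith
  have hmain : (Q - 1) * (y ^ 2 * x ^ 4) ≤ Q * (81 * ((y - (J + 2 * c + 1)) ^ 2 * (M ^ 4 - M ^ 2)) -
      432 * (J + 3) * y * x ^ 4) := by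
    have hs0 : 0 ≤ (y - (J + 2 * c + 1)) ^ 2 := by positivity
    have h1 := mul_le_mul_of_nonneg_left hM81 hs0
    have h2 : (1 - 1 / (4 * Q)) * x ^ 4 ≤ x ^ 4 - 8 * x ^ 3 := by
      have h3 : 8 * x ^ 3 * (4 * Q) ≤ x ^ 4 := by
        have h4 : 0 ≤ x ^ 3 := by positivity
        have h5 : 32 * Q ≤ x := by linarith
        have h6 := mul_le_mul_of_nonneg_left h5 h4
        linarith
      have h4 : 8 * x ^ 3 ≤ x ^ 4 / (4 * Q) := by
        rw [le_div_iff₀ (by positivity)]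
        exact h3
      have h5 : (1 - 1 / (4 * Q)) * x ^ 4 = x ^ 4 - x ^ 4 / (4 * Q) := by ring
      linarith
    have h3 := mul_le_mul_of_nonneg_left h2 hs0
    have h4 : y ^ 2 - 2 * (J + 2 * c + 1) * y ≤ (y - (J + 2 * c + 1)) ^ 2 := by
      have : 0 ≤ (J + 2 * c + 1) ^ 2 := by positivity
      linarith
    have h5 : 0 ≤ (Q - 1 / 4) * x ^ 4 := mul_nonneg (by linarith) (by positivity)
    have h6 := mul_le_mul_of_nonneg_right h4 h5
    have h7 : Q * ((y - (J + 2 * c + 1)) ^ 2 * ((1 - 1 / (4 * Q)) * x ^ 4)) =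
        (y - (J + 2 * c + 1)) ^ 2 * ((Q - 1 / 4) * x ^ 4) := by
      have hQ0 : Q ≠ 0 := by positivity
      field_simp
    have h8 := mul_le_mul_of_nonneg_left (h3.trans h1) (by linarith : 0 ≤ Q)
    rw [h7] at h8
    have h9 : (Q - 1) * (y ^ 2 * x ^ 4) ≤
        (y ^ 2 - 2 * (J + 2 * c + 1) * y) * ((Q - 1 / 4) * x ^ 4) -
          Q * (432 * (J + 3) * y * x ^ 4) := by
      have h10 : 0 ≤ (3 / 4 * y ^ 2 - 2 * (J + 2 * c + 1) * y * Q - 432 * (J + 3) * y * Q) *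
          x ^ 4 := by
        refine mul_nonneg ?_ (by positivity)
        have h11 := mul_le_mul_of_nonneg_right hyQ hy0.le
        have h12 : 0 ≤ y ^ 2 := by positivity
        linarith
      have h13 : 0 ≤ 2 * (J + 2 * c + 1) * y * (1 / 4) * x ^ 4 := by positivity
      linarith
    linarith
  have hfin : ((Q - 1) * (δ * y ^ 2 * x ^ 4)) ≤ 162 * Q * (D 0 : ℝ) := by
    have h1 := mul_le_mul_of_nonneg_left hmain hδ0
    have h2 : (δ : ℝ) * ((y - (J + 2 * c + 1)) ^ 2) * (M ^ 4 - M ^ 2) ≤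
        2 * ((D 0 : ℝ) + δ * (8 / 3 * (J + 3) * y * x ^ 4)) := by
      rw [hy, hJ, hc]
      rw [hy, hJ] at hloss'
      linarith
    have h3 := mul_le_mul_of_nonneg_left h2 (by positivity : (0 : ℝ) ≤ 81 * Q)
    linarith
  rw [hQ, hy, hx] at hfin
  exact_mod_cast hfin

end Pool.Agent.H78.SFV
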